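import Mathlib
import Pool.Agent.Chud.PBZ
import Pool.Agent.Chud.PB
import Pool.Agent.Chud.PB2
import Pool.Agent.Chud.PA

set_option autoImplicit false

/-!
# Determinants of matrices of linear forms attached to rational plane curves
-/

namespace Pool.Agent.V11319.HC

open MvPolynomial Finset Pool.Agent.Chud

/-- bivariate polynomial functions of degree less than `d` in both variables -/
def Rp (d : ℕ) (q : ℂ → ℂ → ℂ) : Prop :=
  ∃ b : Matrix (Fin d) (Fin d) ℂ, ∀ t s, ∑ k, ∑ l, b k l * t ^ (k : ℕ) * s ^ (l : ℕ) = q t s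

lemma Rp.add {d : ℕ} {p q : ℂ → ℂ → ℂ} (hp : Rp d p) (hq : Rp d q) :
    Rp d (fun t s => p t s + q t s) := by
  obtain ⟨b, hb⟩ := hp
  obtain ⟨c, hc⟩ := hq
  refine ⟨b + c, fun t s => ?_⟩
  beta_reduce
  rw [← hb, ← hc, ← sum_add_distrib]
  refine sum_congr rfl fun k _ => ?_
  rw [← sum_add_distrib]
  refine sum_congr rfl fun l _ => ?_
  rw [Matrix.add_apply]; ring

lemma Rp.neg {d : ℕ} {p : ℂ → ℂ → ℂ} (hp : Rp d p) : Rp d (fun t s => - p t s) := by
  obtain ⟨b, hb⟩ := hp
  refine ⟨-b, fun t s => ?_⟩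
  beta_reduce
  rw [← hb, ← sum_neg_distrib]
  refine sum_congr rfl fun k _ => ?_
  rw [← sum_neg_distrib]
  refine sum_congr rfl fun l _ => ?_
  rw [Matrix.neg_apply]; ring

lemma Rp.zero {d : ℕ} : Rp d (fun _ _ => 0) := ⟨0, fun t s => by simp⟩

lemma Rp.sum {d : ℕ} {ι : Type} (S : Finset ι) (p : ι → ℂ → ℂ → ℂ) (h : ∀ i ∈ S, Rp d (p i)) :
    Rp d (fun t s => ∑ i ∈ S, p i t s) := by
  classical
  induction S using Finset.induction_on with
  | empty => simpa using Rp.zero
  | insert a S ha ih =>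
    have h1 := (h a (mem_insert_self _ _)).add (ih fun i hi => h i (mem_insert_of_mem hi))
    simpa [sum_insert ha] using h1

lemma Rp.mono {d k l : ℕ} (hk : k < d) (hl : l < d) : Rp d (fun t s => t ^ k * s ^ l) := by
  refine ⟨fun k' l' => if (k' : ℕ) = k ∧ (l' : ℕ) = l then 1 else 0, fun t s => ?_⟩
  rw [sum_eq_single (⟨k, hk⟩ : Fin d), sum_eq_single (⟨l, hl⟩ : Fin d)]
  · simp
  · intro b _ hb
    have : ¬ ((b : ℕ) = l) := fun h => hb (Fin.ext h)
    simp [this]
  · intro h; exact absurd (mem_univ _) h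
  · intro b _ hb
    have : ¬ ((b : ℕ) = k) := fun h => hb (Fin.ext h)
    simp [this]
  · intro h; exact absurd (mem_univ _) h

/-- `P` is `t - s` times a polynomial function of degree less than `d` in both variables -/
def HasB (d : ℕ) (P : ℂ → ℂ → ℂ) : Prop := ∃ q, Rp d q ∧ ∀ t s, (t - s) * q t s = P t s

lemma HasB.add {d : ℕ} {p q : ℂ → ℂ → ℂ} (hp : HasB d p) (hq : HasB d q) :
    HasB d (fun t s => p t s + q t s) := by
  obtain ⟨b, hb, hb'⟩ := hp
  obtain ⟨c, hc, hc'⟩ := hq
  exact ⟨_, hb.add hc, fun t s => by rw [mul_add, hb', hc']⟩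

lemma HasB.neg {d : ℕ} {p : ℂ → ℂ → ℂ} (hp : HasB d p) : HasB d (fun t s => - p t s) := by
  obtain ⟨b, hb, hb'⟩ := hp
  exact ⟨_, hb.neg, fun t s => by rw [mul_neg, hb']⟩

lemma HasB.congr {d : ℕ} {p q : ℂ → ℂ → ℂ} (hp : HasB d p) (h : ∀ t s, p t s = q t s) :
    HasB d q := by
  obtain ⟨b, hb, hb'⟩ := hp
  exact ⟨b, hb, fun t s => by rw [hb', h]⟩

lemma hasB_mono_aux {d j n : ℕ} (h : j + n ≤ d) :
    HasB d (fun t s => t ^ (j + n) * s ^ j - t ^ j * s ^ (j + n)) := by
  refine ⟨fun t s => ∑ m ∈ range n, t ^ (j + m) * s ^ (j + (n - 1 - m)), ?_, ?_⟩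
  · apply Rp.sum
    intro m hm
    rw [mem_range] at hm
    apply Rp.mono <;> omega
  · intro t s
    have h1 := Commute.geom_sum₂_mul (Commute.all t s) n
    have h2 : ∑ m ∈ range n, t ^ (j + m) * s ^ (j + (n - 1 - m)) =
        t ^ j * s ^ j * ∑ m ∈ range n, t ^ m * s ^ (n - 1 - m) := by
      rw [mul_sum]
      refine sum_congr rfl fun m _ => ?_
      rw [pow_add, pow_add]; ring
    beta_reduce
    rw [h2, show (t - s) * (t ^ j * s ^ j * ∑ m ∈ range n, t ^ m * s ^ (n - 1 - m)) =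
      t ^ j * s ^ j * ((∑ m ∈ range n, t ^ m * s ^ (n - 1 - m)) * (t - s)) by ring, h1,
      pow_add, pow_add]
    ring

lemma hasB_mono {d : ℕ} (i j : ℕ) (hi : i ≤ d) (hj : j ≤ d) :
    HasB d (fun t s => t ^ i * s ^ j - t ^ j * s ^ i) := by
  rcases le_total j i with h | h
  · obtain ⟨n, rfl⟩ := Nat.exists_eq_add_of_le h
    exact hasB_mono_aux hi
  · obtain ⟨n, rfl⟩ := Nat.exists_eq_add_of_le h
    refine (hasB_mono_aux hj).neg.congr fun t s => ?_
    ring

lemma HasB.mat {d : ℕ} {P : ℂ → ℂ → ℂ} (h : HasB d P) : ∃ b : Matrix (Fin d) (Fin d) ℂ,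
    ∀ t s, (t - s) * ∑ k, ∑ l, b k l * t ^ (k : ℕ) * s ^ (l : ℕ) = P t s := by
  obtain ⟨q, ⟨b, hb⟩, hq⟩ := h
  exact ⟨b, fun t s => by rw [hb, hq]⟩

section

variable {d : ℕ}

/-- a polynomial of degree less than `d` with `d` zeros -/
lemma coeff_zero_of_roots (c : Fin d → ℂ) (T : Fin d → ℂ) (hT : Function.Injective T)
    (h : ∀ i, ∑ k, c k * T i ^ (k : ℕ) = 0) : c = 0 := by
  have h1 := Matrix.det_vandermonde_ne_zero_iff.2 hT
  have h2 : (Matrix.vandermonde T).mulVec c = 0 := by
    ext i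
    have := h i
    simp only [Matrix.mulVec, dotProduct, Matrix.vandermonde_apply, Pi.zero_apply]
    rw [← this]
    exact sum_congr rfl fun k _ => mul_comm _ _
  by_contra hc
  exact h1 (Matrix.exists_mulVec_eq_zero_iff.1 ⟨c, hc, h2⟩)

/-- extension of an injective map to an injective map -/
lemma exists_ext {m : ℕ} (hm : m ≤ d) (τ : Fin m → ℂ) (hτ : Function.Injective τ) :
    ∃ T : Fin d → ℂ, Function.Injective T ∧ ∀ (j : Fin d) (h : (j : ℕ) < m), T j = τ ⟨j, h⟩ := by
  classical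
  have h1 : (Set.range τ)ᶜ.Infinite := (Set.finite_range τ).infinite_compl
  let e := h1.natEmbedding
  refine ⟨fun j => if h : (j : ℕ) < m then τ ⟨j, h⟩ else (e j : ℂ), ?_, ?_⟩
  · intro i j hij
    simp only at hij
    split_ifs at hij with hi hj hj
    · have := hτ hij
      rw [Fin.mk.injEq] at this
      exact Fin.ext this
    · exact absurd ⟨_, hij⟩ (e j).2
    · exact absurd ⟨_, hij.symm⟩ (e i).2
    · exact Fin.ext (e.injective (Subtype.ext hij))
  · intro j h
    simp [h]

variable (M : Matrix (Fin d) (Fin d) (MvPolynomial (Fin 3) ℂ))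

lemma det_homog (hM1 : ∀ k l, (M k l).IsHomogeneous 1) : M.det.IsHomogeneous d := by
  rw [Matrix.det_apply]
  apply IsHomogeneous.sum
  intro σ _
  rw [Units.smul_def]
  have h1 : (∏ i, M (σ i) i).IsHomogeneous d := by
    have := IsHomogeneous.prod univ (fun i => M (σ i) i) (fun _ => 1) (fun i _ => hM1 _ _)
    simpa using this
  exact zsmul_mem (K := homogeneousSubmodule (Fin 3) ℂ d) h1 _

/-- **multiplicities** from the dimension of the kernel -/
lemma det_mem {m : ℕ} (hm : m ≤ d) (τ : Fin m → ℂ) (hτ : Function.Injective τ) (p : Fin 3 → ℂ)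
    (h : ∀ i k, ∑ l, eval p (M k l) * τ i ^ (l : ℕ) = 0) : M.det ∈ mI p ^ m := by
  classical
  obtain ⟨T, hT, hT'⟩ := exists_ext hm τ hτ
  set U : Matrix (Fin d) (Fin d) ℂ := (Matrix.vandermonde T).transpose with hU
  have hU0 : U.det ≠ 0 := by
    rw [hU, Matrix.det_transpose]
    exact Matrix.det_vandermonde_ne_zero_iff.2 hT
  set A : Matrix (Fin d) (Fin d) (MvPolynomial (Fin 3) ℂ) := M * U.map C with hA
  have hAe : ∀ k j, A k j = ∑ l, M k l * C (T j ^ (l : ℕ)) := by
    intro k j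
    rw [hA, Matrix.mul_apply]
    refine sum_congr rfl fun l _ => ?_
    rw [Matrix.map_apply, hU, Matrix.transpose_apply, Matrix.vandermonde_apply]
  have hAm : ∀ k (j : Fin d), (j : ℕ) < m → A k j ∈ mI p := by
    intro k j hj
    rw [mI, RingHom.mem_ker, hAe, map_sum]
    rw [← h ⟨j, hj⟩ k]
    refine sum_congr rfl fun l _ => ?_
    rw [map_mul, eval_C, hT' j hj]
  have hdet : A.det ∈ mI p ^ m := by
    rw [Matrix.det_apply]
    apply Ideal.sum_mem
    intro σ _
    rw [Units.smul_def]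
    apply zsmul_mem
    rw [← prod_filter_mul_prod_filter_not univ (fun i : Fin d => (i : ℕ) < m)]
    apply Ideal.mul_mem_right
    have h1 := Ideal.prod_mem_prod (s := univ.filter (fun i : Fin d => (i : ℕ) < m))
      (I := fun _ => mI p) (x := fun i => A (σ i) i)
      (fun i hi => hAm _ _ (mem_filter.1 hi).2)
    rw [prod_const] at h1
    have h2 : (univ.filter (fun i : Fin d => (i : ℕ) < m)).card = m := by
      have : (univ.filter (fun i : Fin d => (i : ℕ) < m)) =
          univ.map (Fin.castLEEmb hm) := by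
        ext i
        simp only [mem_filter, mem_univ, true_and, mem_map]
        constructor
        · intro hi
          exact ⟨⟨i, hi⟩, Fin.ext rfl⟩
        · rintro ⟨a, rfl⟩
          exact a.2
      rw [this, card_map, card_univ, Fintype.card_fin]
    rwa [h2] at h1
  have hmul : A.det = M.det * C U.det := by
    rw [hA, Matrix.det_mul]
    congr 1
    rw [show U.map C = (C : ℂ →+* MvPolynomial (Fin 3) ℂ).mapMatrix U from rfl,
      ← RingHom.map_det]
  have h3 : M.det = A.det * C (U.det)⁻¹ := by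
    rw [hmul, mul_assoc, ← C_mul, mul_inv_cancel₀ hU0, C_1, mul_one]
  rw [h3]
  exact Ideal.mul_mem_right _ _ hdet

variable (D : (Fin 3 → ℂ) → ℂ → ℂ → ℂ)

/-- the kernel vectors -/
lemma ker_of_zero (hM : ∀ p t s, (t - s) * ∑ k, ∑ l, eval p (M k l) * t ^ (k : ℕ) * s ^ (l : ℕ) =
      D p t s) (p : Fin 3 → ℂ) (s : ℂ) (h : ∀ t, D p t s = 0) (k : Fin d) :
    ∑ l, eval p (M k l) * s ^ (l : ℕ) = 0 := by
  obtain ⟨T, hT, hT'⟩ := exists_ext (d := d + 1) (m := 1) (by omega) (fun _ => s)
    (fun a b _ => Subsingleton.elim _ _)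
  have h0 : T 0 = s := hT' 0 (by simp)
  have h1 := coeff_zero_of_roots (fun k => ∑ l, eval p (M k l) * s ^ (l : ℕ))
    (fun i : Fin d => T i.succ) (fun i j hij => Fin.succ_injective _ (hT hij)) (by
      intro i
      have h2 := hM p (T i.succ) s
      rw [h, mul_eq_zero] at h2
      have h3 : T i.succ - s ≠ 0 := by
        rw [← h0, sub_ne_zero]
        intro h4
        exact Fin.succ_ne_zero _ (hT h4)
      have h5 := h2.resolve_left h3
      rw [← h5]
      refine sum_congr rfl fun k _ => ?_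
      rw [sum_mul]
      exact sum_congr rfl fun l _ => by ring)
  exact congrFun h1 k

/-- the determinant does not vanish off the curve -/
lemma det_ne_zero (hM : ∀ p t s, (t - s) * ∑ k, ∑ l, eval p (M k l) * t ^ (k : ℕ) * s ^ (l : ℕ) =
      D p t s) (p : Fin 3 → ℂ) (T : Fin d → ℂ) (hT : Function.Injective T)
    (h1 : ∀ i j, i ≠ j → D p (T i) (T j) = 0) (h2 : ∀ i, ∃ s, D p (T i) s ≠ 0) :
    eval p M.det ≠ 0 := by
  classical
  have hW : ∀ i j, ∑ k, ∑ l, eval p (M k l) * T i ^ (k : ℕ) * T j ^ (l : ℕ) =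
      (Matrix.vandermonde T * (M.map (eval p)) * (Matrix.vandermonde T).transpose) i j := by
    intro i j
    rw [Matrix.mul_apply]
    simp only [Matrix.mul_apply, Matrix.vandermonde_apply, Matrix.map_apply,
      Matrix.transpose_apply]
    rw [sum_comm]
    refine sum_congr rfl fun l _ => ?_
    rw [sum_mul]
    exact sum_congr rfl fun k _ => by ring
  set W := (Matrix.vandermonde T * (M.map (eval p)) * (Matrix.vandermonde T).transpose) with hWd
  have hoff : ∀ i j, i ≠ j → W i j = 0 := by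
    intro i j hij
    rw [← hW]
    have h3 := hM p (T i) (T j)
    rw [h1 i j hij, mul_eq_zero] at h3
    exact h3.resolve_left (sub_ne_zero.2 fun h => hij (hT h))
  have hdiag : ∀ i, W i i ≠ 0 := by
    intro i h0
    obtain ⟨s, hs⟩ := h2 i
    apply hs
    have h3 := coeff_zero_of_roots (fun l => ∑ k, eval p (M k l) * T i ^ (k : ℕ)) T hT (by
      intro j
      have h4 : W i j = 0 := by
        by_cases hij : i = j
        · rw [← hij]; exact h0
        · exact hoff i j hij
      rw [← h4, ← hW, sum_comm]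
      refine sum_congr rfl fun l _ => ?_
      rw [sum_mul])
    rw [← hM, sum_comm]
    apply mul_eq_zero_of_right
    apply sum_eq_zero
    intro l _
    have h5 := congrFun h3 l
    simp only [Pi.zero_apply] at h5
    rw [← sum_mul, h5, zero_mul]
  have hdet : W.det ≠ 0 := by
    have : W = Matrix.diagonal fun i => W i i := by
      ext i j
      by_cases hij : i = j
      · rw [hij, Matrix.diagonal_apply_eq]
      · rw [Matrix.diagonal_apply_ne _ hij, hoff i j hij]
    rw [this, Matrix.det_diagonal]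
    exact prod_ne_zero_iff.2 fun i _ => hdiag i
  intro h0
  apply hdet
  rw [hWd, Matrix.det_mul, Matrix.det_mul]
  have : (M.map (eval p)).det = eval p M.det := by
    rw [RingHom.map_det]; rfl
  rw [this, h0]
  ring

end

end Pool.Agent.V11319.HC
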