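import Pool.Agent.V11319.HC.Irr

set_option autoImplicit false

/-!
# Counting the singular points
-/

namespace Pool.Agent.V11319.HC

open MvPolynomial Finset Pool.Agent.Chud Polynomial

lemma pow_one_of_comb {t : ℂ} {x y z : ℕ} (hx : t ^ x = 1) (hy : t ^ y = 1) (A B : ℤ)
    (h : (z : ℤ) = A * x + B * y) : t ^ z = 1 := by
  rw [← orderOf_dvd_iff_pow_eq_one] at hx hy ⊢
  rw [← Int.natCast_dvd_natCast] at hx hy ⊢
  rw [h]
  exact dvd_add (Dvd.dvd.mul_left hx _) (Dvd.dvd.mul_left hy _)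

lemma pow_of_three (a n : ℕ) {t s : ℂ} (ht : t ^ n = 1)
    (h : s = t ∨ s = t ^ a ∨ s = (t ^ (a + 1))⁻¹) : s ^ n = 1 := by
  rcases h with rfl | rfl | rfl
  · exact ht
  · rw [← pow_mul, mul_comm, pow_mul, ht, one_pow]
  · rw [inv_pow, ← pow_mul, mul_comm, pow_mul, ht, one_pow, inv_one]

/-- first family of double points -/
noncomputable def A1 (j : ℕ) : Finset ℂ :=
  (nthRootsFinset ((3 * j + 2) * (3 * j + 4)) (1 : ℂ)).filter fun t => t ^ (3 * j + 2) ≠ 1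
/-- second family of double points -/
noncomputable def A2 (j : ℕ) : Finset ℂ :=
  (nthRootsFinset ((3 * j + 3) * (3 * j + 5)) (1 : ℂ)).filter fun t => t ^ (3 * j + 5) ≠ 1
/-- triple points -/
noncomputable def A3 (j : ℕ) : Finset ℂ :=
  (nthRootsFinset ((3 * j + 3) * (3 * j + 3) + (3 * j + 3) + 1) (1 : ℂ)).filter fun t => t ^ 1 ≠ 1

lemma card_filter_roots {n m : ℕ} (hn : 0 < n) (hm : 0 < m) (h : m ∣ n) :
    ((nthRootsFinset n (1 : ℂ)).filter fun t => t ^ m ≠ 1).card = n - m := by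
  classical
  have h1 : (nthRootsFinset n (1 : ℂ)).filter (fun t => t ^ m ≠ 1) =
      nthRootsFinset n (1 : ℂ) \ nthRootsFinset m (1 : ℂ) := by
    ext t
    rw [mem_filter, mem_sdiff, mem_nthRootsFinset hm]
  rw [h1, card_sdiff_of_subset, card_nth hn one_ne_zero, card_nth hm one_ne_zero]
  intro t ht
  rw [mem_nthRootsFinset hm] at ht
  rw [mem_nthRootsFinset hn]
  obtain ⟨c, rfl⟩ := h
  rw [pow_mul, ht, one_pow]

lemma card_A1 (j : ℕ) : (A1 j).card = (3 * j + 2) * (3 * j + 3) := by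
  rw [A1, card_filter_roots (by positivity) (by positivity) (Dvd.intro _ rfl)]
  rw [show (3 * j + 2) * (3 * j + 4) = (3 * j + 2) * (3 * j + 3) + (3 * j + 2) by ring]
  omega

lemma card_A2 (j : ℕ) : (A2 j).card = (3 * j + 5) * (3 * j + 2) := by
  rw [A2, card_filter_roots (by positivity) (by positivity) (Dvd.intro_left _ rfl)]
  rw [show (3 * j + 3) * (3 * j + 5) = (3 * j + 5) * (3 * j + 2) + (3 * j + 5) by ring]
  omega

lemma card_A3 (j : ℕ) : (A3 j).card = (3 * j + 3) * (3 * j + 4) := by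
  rw [A3, card_filter_roots (by positivity) (by positivity) (one_dvd _)]
  rw [show (3 * j + 3) * (3 * j + 3) + (3 * j + 3) + 1 = (3 * j + 3) * (3 * j + 4) + 1 by ring]
  omega

lemma mem_A1 {j : ℕ} {t : ℂ} : t ∈ A1 j ↔ t ^ ((3 * j + 2) * (3 * j + 4)) = 1 ∧
    t ^ (3 * j + 2) ≠ 1 := by
  rw [A1, mem_filter, mem_nthRootsFinset (by positivity)]

lemma mem_A2 {j : ℕ} {t : ℂ} : t ∈ A2 j ↔ t ^ ((3 * j + 3) * (3 * j + 5)) = 1 ∧
    t ^ (3 * j + 5) ≠ 1 := by
  rw [A2, mem_filter, mem_nthRootsFinset (by positivity)]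

lemma mem_A3 {j : ℕ} {t : ℂ} : t ∈ A3 j ↔
    t ^ ((3 * j + 3) * (3 * j + 3) + (3 * j + 3) + 1) = 1 ∧ t ^ 1 ≠ 1 := by
  rw [A3, mem_filter, mem_nthRootsFinset (by positivity)]

lemma ne_zero_of_pow {t : ℂ} {n : ℕ} (hn : n ≠ 0) (h : t ^ n = 1) : t ≠ 0 := by
  rintro rfl
  rw [zero_pow hn] at h
  exact zero_ne_one h

section

variable {j : ℕ} {t : ℂ}

lemma pt1 (h : t ∈ A1 j) : pt (3 * j + 3) (t ^ (3 * j + 3)) = pt (3 * j + 3) t := by
  obtain ⟨h1, -⟩ := mem_A1.1 h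
  have h2 : (t ^ (3 * j + 3)) ^ (3 * j + 3) = t := by
    rw [← pow_mul, show (3 * j + 3) * (3 * j + 3) = (3 * j + 2) * (3 * j + 4) + 1 by ring,
      pow_succ, h1, one_mul]
  rw [pt_eq_iff, e1, e1, e2, e2, pow_succ (t ^ (3 * j + 3)) (3 * j + 3), h2,
    pow_succ t (3 * j + 3)]
  constructor
  · ring
  · ring

lemma pt2 (h : t ∈ A2 j) : pt (3 * j + 3) ((t ^ (3 * j + 3 + 1))⁻¹) = pt (3 * j + 3) t := by
  obtain ⟨h1, -⟩ := mem_A2.1 h
  have h0 : t ≠ 0 := ne_zero_of_pow (by positivity) h1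
  have h2 : ((t ^ (3 * j + 3 + 1))⁻¹) ^ (3 * j + 3) = t ^ (3 * j + 3) := by
    rw [inv_pow, ← pow_mul]
    apply inv_eq_of_mul_eq_one_left
    rw [← pow_add, show 3 * j + 3 + (3 * j + 3 + 1) * (3 * j + 3) = (3 * j + 3) * (3 * j + 5) by ring,
      h1]
  have h3 : ((t ^ (3 * j + 3 + 1))⁻¹) ^ (3 * j + 3 + 1) = t⁻¹ := by
    rw [pow_succ, h2, pow_succ t (3 * j + 3), mul_inv, ← mul_assoc,
      mul_inv_cancel₀ (pow_ne_zero _ h0), one_mul]
  rw [pt_eq_iff, e1, e1, e2, e2, h3, h2, inv_inv, inv_inv]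
  constructor
  · ring
  · ring

lemma pt3 (h : t ∈ A3 j) : pt (3 * j + 3) (t ^ (3 * j + 3)) = pt (3 * j + 3) t ∧
    pt (3 * j + 3) ((t ^ (3 * j + 3 + 1))⁻¹) = pt (3 * j + 3) t := by
  obtain ⟨h1, -⟩ := mem_A3.1 h
  have h0 : t ≠ 0 := ne_zero_of_pow (by positivity) h1
  constructor
  · have h2 : (t ^ (3 * j + 3)) ^ (3 * j + 3) = (t ^ (3 * j + 3 + 1))⁻¹ := by
      rw [← pow_mul]
      apply eq_inv_of_mul_eq_one_left
      rw [← pow_add, ← h1]
      congr 1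
    have h3 : (t ^ (3 * j + 3)) ^ (3 * j + 3 + 1) = t⁻¹ := by
      rw [pow_succ, h2, pow_succ, mul_inv, mul_comm, ← mul_assoc,
        mul_inv_cancel₀ (pow_ne_zero _ h0), one_mul]
    rw [pt_eq_iff, e1, e1, e2, e2, h3, h2, inv_inv, inv_inv]
    constructor
    · ring
    · ring
  · have h2 : ((t ^ (3 * j + 3 + 1))⁻¹) ^ (3 * j + 3) = t := by
      rw [inv_pow, ← pow_mul]
      apply inv_eq_of_mul_eq_one_left
      rw [← pow_succ', ← h1]
      congr 1
      ring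
    have h3 : ((t ^ (3 * j + 3 + 1))⁻¹) ^ (3 * j + 3 + 1) = (t ^ (3 * j + 3))⁻¹ := by
      rw [pow_succ, h2, pow_succ, mul_inv, mul_comm, mul_assoc, inv_mul_cancel₀ h0, mul_one]
    rw [pt_eq_iff, e1, e1, e2, e2, h3, h2, inv_inv, inv_inv]
    constructor
    · ring
    · ring

lemma mu1 (h : t ∈ A1 j) : 2 ≤ mu (pt (3 * j + 3) t).rep (FF (3 * j + 3)) := by
  obtain ⟨h1, h2⟩ := mem_A1.1 h
  have h0 : t ≠ 0 := ne_zero_of_pow (by positivity) h1
  rw [← mem_mI_pow_iff _ (FF_ne (by omega))]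
  apply FF_mem (3 * j + 3) (m := 2) (by omega) t ![t, t ^ (3 * j + 3)]
  · have hne : t ≠ t ^ (3 * j + 3) := by
      intro h3
      apply h2
      have h4 : t * 1 = t * t ^ (3 * j + 2) := by
        rw [mul_one, ← pow_succ']; exact h3
      exact (mul_left_cancel₀ h0 h4).symm
    intro x y hxy
    fin_cases x <;> fin_cases y
    · rfl
    · exact absurd hxy hne
    · exact absurd hxy.symm hne
    · rfl
  · intro i
    fin_cases i
    · exact h0
    · exact pow_ne_zero _ h0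
  · intro i
    fin_cases i
    · rfl
    · exact pt1 h

lemma mu2 (h : t ∈ A2 j) : 2 ≤ mu (pt (3 * j + 3) t).rep (FF (3 * j + 3)) := by
  obtain ⟨h1, h2⟩ := mem_A2.1 h
  have h0 : t ≠ 0 := ne_zero_of_pow (by positivity) h1
  rw [← mem_mI_pow_iff _ (FF_ne (by omega))]
  apply FF_mem (3 * j + 3) (m := 2) (by omega) t ![t, (t ^ (3 * j + 3 + 1))⁻¹]
  · have hne : t ≠ (t ^ (3 * j + 3 + 1))⁻¹ := by
      intro h3
      apply h2
      rw [← mul_eq_one_iff_eq_inv₀ (pow_ne_zero _ h0), ← pow_succ'] at h3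
      exact h3
    intro x y hxy
    fin_cases x <;> fin_cases y
    · rfl
    · exact absurd hxy hne
    · exact absurd hxy.symm hne
    · rfl
  · intro i
    fin_cases i
    · exact h0
    · exact inv_ne_zero (pow_ne_zero _ h0)
  · intro i
    fin_cases i
    · rfl
    · exact pt2 h

lemma mu3 (h : t ∈ A3 j) : 3 ≤ mu (pt (3 * j + 3) t).rep (FF (3 * j + 3)) := by
  obtain ⟨h1, h2⟩ := mem_A3.1 h
  have h0 : t ≠ 0 := ne_zero_of_pow (by positivity) h1
  rw [← mem_mI_pow_iff _ (FF_ne (by omega))]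
  apply FF_mem (3 * j + 3) (m := 3) (by omega) t ![t, t ^ (3 * j + 3), (t ^ (3 * j + 3 + 1))⁻¹]
  · have hne1 : t ≠ t ^ (3 * j + 3) := by
      intro h3
      apply h2
      have h4 : t * 1 = t * t ^ (3 * j + 2) := by
        rw [mul_one, ← pow_succ']; exact h3
      have h5 := (mul_left_cancel₀ h0 h4).symm
      refine pow_one_of_comb h1 h5 (j + 1) (-(j + 1) * (3 * j + 5) - 1) ?_
      push_cast; ring
    have hne2 : t ≠ (t ^ (3 * j + 3 + 1))⁻¹ := by
      intro h3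
      apply h2
      rw [← mul_eq_one_iff_eq_inv₀ (pow_ne_zero _ h0), ← pow_succ'] at h3
      refine pow_one_of_comb h1 h3 (j + 2) (-(j + 2) * (3 * j + 2) - 1) ?_
      push_cast; ring
    have hne3 : t ^ (3 * j + 3) ≠ (t ^ (3 * j + 3 + 1))⁻¹ := by
      intro h3
      apply h2
      rw [← mul_eq_one_iff_eq_inv₀ (pow_ne_zero _ h0), ← pow_add] at h3
      refine pow_one_of_comb h1 h3 (-8 * (j + 1)) (1 + 2 * (j + 1) * (6 * j + 7)) ?_
      push_cast; ring
    intro x y hxy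
    fin_cases x <;> fin_cases y
    · rfl
    · exact absurd hxy hne1
    · exact absurd hxy hne2
    · exact absurd hxy.symm hne1
    · rfl
    · exact absurd hxy hne3
    · exact absurd hxy.symm hne2
    · exact absurd hxy.symm hne3
    · rfl
  · intro i
    fin_cases i
    · exact h0
    · exact pow_ne_zero _ h0
    · exact inv_ne_zero (pow_ne_zero _ h0)
  · intro i
    fin_cases i
    · rfl
    · exact (pt3 h).1
    · exact (pt3 h).2

end

open Classical in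
lemma fib1 (j : ℕ) : (A1 j).card ≤ 2 * ((A1 j).image (pt (3 * j + 3))).card := by
  apply card_le_mul_card_image
  intro b hb
  obtain ⟨t, ht, rfl⟩ := mem_image.1 hb
  have h : (A1 j).filter (fun s => pt (3 * j + 3) s = pt (3 * j + 3) t) ⊆ {t, t ^ (3 * j + 3)} := by
    intro s hs
    obtain ⟨hs1, hs2⟩ := mem_filter.1 hs
    obtain ⟨h1, h2⟩ := mem_A1.1 ht
    obtain ⟨h3, h4⟩ := mem_A1.1 hs1
    have h0 : t ≠ 0 := ne_zero_of_pow (by positivity) h1
    have h0' : s ≠ 0 := ne_zero_of_pow (by positivity) h3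
    rcases mem_three _ h0 h0' hs2 with h5 | h5 | h5
    · rw [h5]; simp
    · rw [h5]; simp
    · exfalso
      apply h4
      rw [h5, inv_pow, ← pow_mul, show (3 * j + 3 + 1) * (3 * j + 2) = (3 * j + 2) * (3 * j + 4) by ring,
        h1, inv_one]
  exact (card_le_card h).trans card_le_two

open Classical in
lemma fib2 (j : ℕ) : (A2 j).card ≤ 2 * ((A2 j).image (pt (3 * j + 3))).card := by
  apply card_le_mul_card_image
  intro b hb
  obtain ⟨t, ht, rfl⟩ := mem_image.1 hb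
  have h : (A2 j).filter (fun s => pt (3 * j + 3) s = pt (3 * j + 3) t) ⊆
      {t, (t ^ (3 * j + 3 + 1))⁻¹} := by
    intro s hs
    obtain ⟨hs1, hs2⟩ := mem_filter.1 hs
    obtain ⟨h1, h2⟩ := mem_A2.1 ht
    obtain ⟨h3, h4⟩ := mem_A2.1 hs1
    have h0 : t ≠ 0 := ne_zero_of_pow (by positivity) h1
    have h0' : s ≠ 0 := ne_zero_of_pow (by positivity) h3
    rcases mem_three _ h0 h0' hs2 with h5 | h5 | h5
    · rw [h5]; simp
    · exfalso
      apply h4
      rw [h5, ← pow_mul, h1]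
    · rw [h5]; simp
  exact (card_le_card h).trans card_le_two

open Classical in
lemma fib3 (j : ℕ) : (A3 j).card ≤ 3 * ((A3 j).image (pt (3 * j + 3))).card := by
  apply card_le_mul_card_image
  intro b hb
  obtain ⟨t, ht, rfl⟩ := mem_image.1 hb
  have h : (A3 j).filter (fun s => pt (3 * j + 3) s = pt (3 * j + 3) t) ⊆
      {t, t ^ (3 * j + 3), (t ^ (3 * j + 3 + 1))⁻¹} := by
    intro s hs
    obtain ⟨hs1, hs2⟩ := mem_filter.1 hs
    obtain ⟨h1, h2⟩ := mem_A3.1 ht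
    obtain ⟨h3, h4⟩ := mem_A3.1 hs1
    have h0 : t ≠ 0 := ne_zero_of_pow (by positivity) h1
    have h0' : s ≠ 0 := ne_zero_of_pow (by positivity) h3
    rcases mem_three _ h0 h0' hs2 with h5 | h5 | h5
    · rw [h5]; simp
    · rw [h5]; simp
    · rw [h5]; simp
  exact (card_le_card h).trans card_le_three

open Classical in
lemma disj13 (j : ℕ) : Disjoint ((A1 j).image (pt (3 * j + 3))) ((A3 j).image (pt (3 * j + 3))) := by
  rw [Finset.disjoint_left]
  intro p hp hp'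
  obtain ⟨t, ht, rfl⟩ := mem_image.1 hp
  obtain ⟨s, hs, hst⟩ := mem_image.1 hp'
  obtain ⟨h1, h2⟩ := mem_A1.1 ht
  obtain ⟨h3, h4⟩ := mem_A3.1 hs
  have h0 : t ≠ 0 := ne_zero_of_pow (by positivity) h1
  have h0' : s ≠ 0 := ne_zero_of_pow (by positivity) h3
  have h5 := pow_of_three _ _ h1 (mem_three _ h0 h0' hst)
  apply h4
  refine pow_one_of_comb h5 h3 ((j + 2) * (3 * j + 2) + 1) (-(j + 2) * (3 * j + 1) - 1) ?_
  push_cast; ring

open Classical in
lemma disj23 (j : ℕ) : Disjoint ((A2 j).image (pt (3 * j + 3))) ((A3 j).image (pt (3 * j + 3))) := by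
  rw [Finset.disjoint_left]
  intro p hp hp'
  obtain ⟨t, ht, rfl⟩ := mem_image.1 hp
  obtain ⟨s, hs, hst⟩ := mem_image.1 hp'
  obtain ⟨h1, h2⟩ := mem_A2.1 ht
  obtain ⟨h3, h4⟩ := mem_A3.1 hs
  have h0 : t ≠ 0 := ne_zero_of_pow (by positivity) h1
  have h0' : s ≠ 0 := ne_zero_of_pow (by positivity) h3
  have h5 := pow_of_three _ _ h1 (mem_three _ h0 h0' hst)
  apply h4
  refine pow_one_of_comb h5 h3 (-(j + 1) * (3 * j + 5) - 1) ((j + 1) + (j + 1) * (3 * j + 5) + 1) ?_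
  push_cast; ring

open Classical in
lemma disj12 (j : ℕ) : Disjoint ((A1 j).image (pt (3 * j + 3))) ((A2 j).image (pt (3 * j + 3))) := by
  rw [Finset.disjoint_left]
  intro p hp hp'
  obtain ⟨t, ht, rfl⟩ := mem_image.1 hp
  obtain ⟨s, hs, hst⟩ := mem_image.1 hp'
  obtain ⟨h1, h2⟩ := mem_A1.1 ht
  obtain ⟨h3, h4⟩ := mem_A2.1 hs
  have h0 : t ≠ 0 := ne_zero_of_pow (by positivity) h1
  have h0' : s ≠ 0 := ne_zero_of_pow (by positivity) h3
  have h5 := pow_of_three _ _ h1 (mem_three _ h0 h0' hst)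
  apply h4
  have h6 : s ^ 1 = 1 := by
    refine pow_one_of_comb h5 h3 (-1 + 2 * (j + 1) * (6 * j + 5) + 8 * (j + 1))
      (1 - 2 * (j + 1) * (6 * j + 5)) ?_
    push_cast; ring
  rw [pow_one] at h6
  rw [h6, one_pow]

/-- the h-constant of a plane curve of degree `d` with equation `F` -/
noncomputable def hC (d : ℕ) (F : MvPolynomial (Fin 3) ℂ) : ℝ :=
  ((d : ℝ) ^ 2 - ∑ᶠ p ∈ sing F, (mu p.rep F : ℝ) ^ 2) / ((sing F).ncard : ℝ)

theorem main (c : ℝ) (hc : c < 9 / 4) : ∃ (d : ℕ) (F : MvPolynomial (Fin 3) ℂ),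
    F.IsHomogeneous d ∧ Irreducible F ∧ (sing F).Finite ∧ (sing F).Nonempty ∧ hC d F < -c := by
  classical
  obtain ⟨j, hj⟩ := exists_nat_gt ((3 * c - 1) / (9 - 4 * c))
  have h94 : 0 < 9 - 4 * c := by linarith
  rw [div_lt_iff₀ h94] at hj
  set a := 3 * j + 3 with ha
  have ha2 : 2 ≤ a := by omega
  have hirr := FF_irr ha2
  have hfin := sing_finite (FF_homog a) hirr (by omega)
  set S1 := (A1 j).image (pt a) with hS1
  set S2 := (A2 j).image (pt a) with hS2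
  set S3 := (A3 j).image (pt a) with hS3
  have hs1 : ∀ p ∈ S1, 2 ≤ mu p.rep (FF a) := by
    intro p hp
    obtain ⟨t, ht, rfl⟩ := mem_image.1 hp
    exact mu1 ht
  have hs2 : ∀ p ∈ S2, 2 ≤ mu p.rep (FF a) := by
    intro p hp
    obtain ⟨t, ht, rfl⟩ := mem_image.1 hp
    exact mu2 ht
  have hs3 : ∀ p ∈ S3, 3 ≤ mu p.rep (FF a) := by
    intro p hp
    obtain ⟨t, ht, rfl⟩ := mem_image.1 hp
    exact mu3 ht
  have hsub : S1 ∪ S2 ∪ S3 ⊆ hfin.toFinset := by
    intro p hp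
    rw [Set.Finite.mem_toFinset]
    rw [mem_union, mem_union] at hp
    rcases hp with (hp | hp) | hp
    · exact hs1 p hp
    · exact hs2 p hp
    · exact le_trans (by norm_num) (hs3 p hp)
  have hn1 : ((3 * j + 2) * (3 * j + 3) : ℝ) ≤ 2 * S1.card := by
    have := fib1 j
    rw [card_A1] at this
    exact_mod_cast this
  have hn2 : ((3 * j + 5) * (3 * j + 2) : ℝ) ≤ 2 * S2.card := by
    have := fib2 j
    rw [card_A2] at this
    exact_mod_cast this
  have hn3 : ((3 * j + 3) * (3 * j + 4) : ℝ) ≤ 3 * S3.card := by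
    have := fib3 j
    rw [card_A3] at this
    exact_mod_cast this
  have hcard0 : 0 < (3 * j + 2 : ℝ) * (3 * j + 3) := by positivity
  have hne1 : S1.Nonempty := by
    rw [← card_pos]
    have : (0 : ℝ) < S1.card := by linarith
    exact_mod_cast this
  have hne : (sing (FF a)).Nonempty := by
    obtain ⟨p, hp⟩ := hne1
    exact ⟨p, hs1 p hp⟩
  refine ⟨2 * a + 2, FF a, FF_homog a, hirr, hfin, hne, ?_⟩
  have hT : 0 < hfin.toFinset.card := by
    rw [card_pos]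
    obtain ⟨p, hp⟩ := hne
    exact ⟨p, by rwa [Set.Finite.mem_toFinset]⟩
  rw [hC, finsum_mem_eq_finite_toFinset_sum _ hfin, Set.ncard_eq_toFinset_card _ hfin,
    div_lt_iff₀ (by exact_mod_cast hT)]
  have hsum : ∑ p ∈ hfin.toFinset, ((mu p.rep (FF a) : ℝ) ^ 2 - c) =
      ∑ p ∈ hfin.toFinset, (mu p.rep (FF a) : ℝ) ^ 2 - hfin.toFinset.card * c := by
    rw [sum_sub_distrib, sum_const, nsmul_eq_mul]
  have hpos : ∀ p ∈ hfin.toFinset, p ∉ S1 ∪ S2 ∪ S3 → 0 ≤ (mu p.rep (FF a) : ℝ) ^ 2 - c := by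
    intro p hp _
    rw [Set.Finite.mem_toFinset] at hp
    have h2 : (2 : ℝ) ≤ mu p.rep (FF a) := by exact_mod_cast hp
    nlinarith
  have hge := sum_le_sum_of_subset_of_nonneg hsub hpos
  rw [sum_union, sum_union (disj12 j)] at hge
  · have g1 : (S1.card : ℝ) * (4 - c) ≤ ∑ p ∈ S1, ((mu p.rep (FF a) : ℝ) ^ 2 - c) := by
      rw [← nsmul_eq_mul, ← sum_const]
      apply sum_le_sum
      intro p hp
      have h2 : (2 : ℝ) ≤ mu p.rep (FF a) := by exact_mod_cast hs1 p hp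
      nlinarith
    have g2 : (S2.card : ℝ) * (4 - c) ≤ ∑ p ∈ S2, ((mu p.rep (FF a) : ℝ) ^ 2 - c) := by
      rw [← nsmul_eq_mul, ← sum_const]
      apply sum_le_sum
      intro p hp
      have h2 : (2 : ℝ) ≤ mu p.rep (FF a) := by exact_mod_cast hs2 p hp
      nlinarith
    have g3 : (S3.card : ℝ) * (9 - c) ≤ ∑ p ∈ S3, ((mu p.rep (FF a) : ℝ) ^ 2 - c) := by
      rw [← nsmul_eq_mul, ← sum_const]
      apply sum_le_sum
      intro p hp
      have h2 : (3 : ℝ) ≤ mu p.rep (FF a) := by exact_mod_cast hs3 p hp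
      nlinarith
    have k1 : ((3 * j + 2) * (3 * j + 3) : ℝ) / 2 * (4 - c) ≤ S1.card * (4 - c) :=
      mul_le_mul_of_nonneg_right (by linarith) (by linarith)
    have k2 : ((3 * j + 5) * (3 * j + 2) : ℝ) / 2 * (4 - c) ≤ S2.card * (4 - c) :=
      mul_le_mul_of_nonneg_right (by linarith) (by linarith)
    have k3 : ((3 * j + 3) * (3 * j + 4) : ℝ) / 3 * (9 - c) ≤ S3.card * (9 - c) :=
      mul_le_mul_of_nonneg_right (by linarith) (by linarith)
    have k4 : (((2 * a + 2 : ℕ) : ℝ)) ^ 2 < ((3 * j + 2) * (3 * j + 3) : ℝ) / 2 * (4 - c) +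
        ((3 * j + 5) * (3 * j + 2) : ℝ) / 2 * (4 - c) + ((3 * j + 3) * (3 * j + 4) : ℝ) / 3 * (9 - c) := by
      rw [ha]
      push_cast
      have k5 : 0 < (3 * (j : ℝ) + 4) * (j * (9 - 4 * c) - (3 * c - 1)) := by
        apply mul_pos (by positivity)
        linarith
      nlinarith
    linarith
  · rw [disjoint_union_left]
    exact ⟨disj13 j, disj23 j⟩

end Pool.Agent.V11319.HC
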