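import Pool.Agent.V11319.HC.Bez

set_option autoImplicit false

/-!
# The curves: images of the torus curve `x = y ^ a` under the quotient by `S_3`
-/

namespace Pool.Agent.V11319.HC

open MvPolynomial Finset Pool.Agent.Chud

/-- parametrisation -/
def fX (a : ℕ) (t : ℂ) : ℂ := t ^ (2 * a + 1) + t ^ (a + 2) + t ^ 0
/-- parametrisation -/
def fY (a : ℕ) (t : ℂ) : ℂ := t ^ (2 * a + 2) + t ^ a + t ^ 1
/-- parametrisation -/
def fZ (a : ℕ) (t : ℂ) : ℂ := t ^ (a + 1)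

/-- the determinant of a point and two points of the curve -/
def DD (a : ℕ) (p : Fin 3 → ℂ) (t s : ℂ) : ℂ :=
  p 0 * (fY a t * fZ a s - fZ a t * fY a s) + p 1 * (fZ a t * fX a s - fX a t * fZ a s) +
    p 2 * (fX a t * fY a s - fY a t * fX a s)

lemma hasB_YZ (a : ℕ) : HasB (2 * a + 2) (fun t s => fY a t * fZ a s - fZ a t * fY a s) := by
  have h1 := hasB_mono (d := 2 * a + 2) (2 * a + 2) (a + 1) (by omega) (by omega)
  have h2 := hasB_mono (d := 2 * a + 2) a (a + 1) (by omega) (by omega)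
  have h3 := hasB_mono (d := 2 * a + 2) 1 (a + 1) (by omega) (by omega)
  refine ((h1.add h2).add h3).congr fun t s => ?_
  simp only [fY, fZ]; ring

lemma hasB_ZX (a : ℕ) : HasB (2 * a + 2) (fun t s => fZ a t * fX a s - fX a t * fZ a s) := by
  have h1 := hasB_mono (d := 2 * a + 2) (a + 1) (2 * a + 1) (by omega) (by omega)
  have h2 := hasB_mono (d := 2 * a + 2) (a + 1) (a + 2) (by omega) (by omega)
  have h3 := hasB_mono (d := 2 * a + 2) (a + 1) 0 (by omega) (by omega)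
  refine ((h1.add h2).add h3).congr fun t s => ?_
  simp only [fX, fZ]; ring

lemma hasB_XY (a : ℕ) : HasB (2 * a + 2) (fun t s => fX a t * fY a s - fY a t * fX a s) := by
  have h1 := hasB_mono (d := 2 * a + 2) (2 * a + 1) (2 * a + 2) (by omega) (by omega)
  have h2 := hasB_mono (d := 2 * a + 2) (2 * a + 1) a (by omega) (by omega)
  have h3 := hasB_mono (d := 2 * a + 2) (2 * a + 1) 1 (by omega) (by omega)
  have h4 := hasB_mono (d := 2 * a + 2) (a + 2) (2 * a + 2) (by omega) (by omega)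
  have h5 := hasB_mono (d := 2 * a + 2) (a + 2) a (by omega) (by omega)
  have h6 := hasB_mono (d := 2 * a + 2) (a + 2) 1 (by omega) (by omega)
  have h7 := hasB_mono (d := 2 * a + 2) 0 (2 * a + 2) (by omega) (by omega)
  have h8 := hasB_mono (d := 2 * a + 2) 0 a (by omega) (by omega)
  have h9 := hasB_mono (d := 2 * a + 2) 0 1 (by omega) (by omega)
  refine ((h1.add (h2.add (h3.add h4))).add (h5.add (h6.add (h7.add (h8.add h9))))).congr
    fun t s => ?_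
  simp only [fX, fY]; ring

lemma exists_M (a : ℕ) : ∃ M : Matrix (Fin (2 * a + 2)) (Fin (2 * a + 2)) (MvPolynomial (Fin 3) ℂ),
    (∀ k l, (M k l).IsHomogeneous 1) ∧
    ∀ p t s, (t - s) * ∑ k, ∑ l, eval p (M k l) * t ^ (k : ℕ) * s ^ (l : ℕ) = DD a p t s := by
  obtain ⟨b1, h1⟩ := (hasB_YZ a).mat
  obtain ⟨b2, h2⟩ := (hasB_ZX a).mat
  obtain ⟨b3, h3⟩ := (hasB_XY a).mat
  refine ⟨fun k l => C (b1 k l) * X 0 + C (b2 k l) * X 1 + C (b3 k l) * X 2, ?_, ?_⟩
  · intro k l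
    have e : ∀ (c : ℂ) (i : Fin 3), (C c * X i : MvPolynomial (Fin 3) ℂ).IsHomogeneous 1 :=
      fun c i => by simpa using (isHomogeneous_C (Fin 3) c).mul (isHomogeneous_X ℂ i)
    exact ((e _ _).add (e _ _)).add (e _ _)
  · intro p t s
    rw [DD, ← h1, ← h2, ← h3]
    simp only [map_add, map_mul, eval_C, eval_X]
    have e : ∀ (b : Matrix (Fin (2 * a + 2)) (Fin (2 * a + 2)) ℂ) (c : ℂ),
        c * ((t - s) * ∑ k, ∑ l, b k l * t ^ (k : ℕ) * s ^ (l : ℕ)) =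
        (t - s) * ∑ k, ∑ l, (b k l * c) * t ^ (k : ℕ) * s ^ (l : ℕ) := by
      intro b c
      rw [mul_left_comm, mul_sum]
      congr 1
      refine sum_congr rfl fun k _ => ?_
      rw [mul_sum]
      exact sum_congr rfl fun l _ => by ring
    rw [e, e, e, ← mul_add, ← mul_add, ← sum_add_distrib, ← sum_add_distrib]
    congr 1
    refine sum_congr rfl fun k _ => ?_
    rw [← sum_add_distrib, ← sum_add_distrib]
    exact sum_congr rfl fun l _ => by ring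

/-- the matrix -/
noncomputable def MM (a : ℕ) : Matrix (Fin (2 * a + 2)) (Fin (2 * a + 2)) (MvPolynomial (Fin 3) ℂ) :=
  (exists_M a).choose

lemma MM_homog (a : ℕ) (k l : Fin (2 * a + 2)) : (MM a k l).IsHomogeneous 1 :=
  (exists_M a).choose_spec.1 k l

lemma MM_spec (a : ℕ) (p : Fin 3 → ℂ) (t s : ℂ) :
    (t - s) * ∑ k, ∑ l, eval p (MM a k l) * t ^ (k : ℕ) * s ^ (l : ℕ) = DD a p t s :=
  (exists_M a).choose_spec.2 p t s

/-- the equation of the curve -/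
noncomputable def FF (a : ℕ) : MvPolynomial (Fin 3) ℂ := (MM a).det

lemma FF_homog (a : ℕ) : (FF a).IsHomogeneous (2 * a + 2) := det_homog _ (MM_homog a)

/-- first symmetric function -/
noncomputable def e1 (a : ℕ) (t : ℂ) : ℂ := t ^ a + t + (t ^ (a + 1))⁻¹
/-- second symmetric function -/
noncomputable def e2 (a : ℕ) (t : ℂ) : ℂ := t ^ (a + 1) + t⁻¹ + (t ^ a)⁻¹

lemma fX_eq (a : ℕ) {t : ℂ} (ht : t ≠ 0) : fX a t = fZ a t * e1 a t := by
  have h := pow_ne_zero (a + 1) ht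
  rw [fX, fZ, e1, mul_add, mul_add, mul_inv_cancel₀ h]
  ring

lemma fY_eq (a : ℕ) {t : ℂ} (ht : t ≠ 0) : fY a t = fZ a t * e2 a t := by
  have h := pow_ne_zero a ht
  rw [fY, fZ, e2, mul_add, mul_add, pow_succ t a, mul_assoc (t ^ a) t t⁻¹, mul_inv_cancel₀ ht,
    mul_comm (t ^ a) t, mul_assoc t (t ^ a) (t ^ a)⁻¹, mul_inv_cancel₀ h]
  ring

lemma fZ_ne (a : ℕ) {t : ℂ} (ht : t ≠ 0) : fZ a t ≠ 0 := pow_ne_zero _ ht

/-- the affine point with parameter `t` -/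
noncomputable def PP' (a : ℕ) (t : ℂ) : Fin 3 → ℂ := ![e1 a t, e2 a t, 1]

lemma PP'_ne (a : ℕ) (t : ℂ) : PP' a t ≠ 0 := by
  intro h
  have := congrFun h 2
  simp [PP'] at this

/-- the projective point with parameter `t` -/
noncomputable def pt (a : ℕ) (t : ℂ) : PP ℂ 2 := Projectivization.mk ℂ (PP' a t) (PP'_ne a t)

lemma pt_eq_iff (a : ℕ) (t s : ℂ) : pt a t = pt a s ↔ e1 a t = e1 a s ∧ e2 a t = e2 a s := by
  rw [pt, pt, Projectivization.mk_eq_mk_iff']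
  constructor
  · rintro ⟨c, hc⟩
    have h2 := congrFun hc 2
    have h0 := congrFun hc 0
    have h1 := congrFun hc 1
    simp [PP'] at h0 h1 h2
    rw [h2] at h0 h1
    simp at h0 h1
    exact ⟨h0.symm, h1.symm⟩
  · rintro ⟨h1, h2⟩
    refine ⟨1, ?_⟩
    rw [one_smul, PP', PP', h1, h2]

lemma rep_eq (a : ℕ) (t : ℂ) : ∃ c : ℂ, (pt a t).rep = c • PP' a t := by
  have h := (Projectivization.mk_rep (pt a t))
  conv_rhs at h => rw [pt]
  rw [Projectivization.mk_eq_mk_iff'] at h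
  obtain ⟨c, hc⟩ := h
  exact ⟨c, hc.symm⟩

lemma DD_zero (a : ℕ) {w s : ℂ} (hs : s ≠ 0) (h1 : e1 a s = e1 a w) (h2 : e2 a s = e2 a w) (t : ℂ)
    (c : ℂ) : DD a (c • PP' a w) t s = 0 := by
  simp only [DD, PP', Pi.smul_apply, smul_eq_mul, Matrix.cons_val_zero, Matrix.cons_val_one,
    Matrix.cons_val, fX_eq a hs, fY_eq a hs, h1, h2]
  ring

/-- multiplicity at a point with several parameters -/
lemma FF_mem (a : ℕ) {m : ℕ} (hm : m ≤ 2 * a + 2) (w : ℂ) (τ : Fin m → ℂ)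
    (hτ : Function.Injective τ) (h0 : ∀ i, τ i ≠ 0) (h : ∀ i, pt a (τ i) = pt a w) :
    FF a ∈ mI (pt a w).rep ^ m := by
  obtain ⟨c, hc⟩ := rep_eq a w
  rw [hc]
  apply det_mem _ hm τ hτ
  intro i k
  apply ker_of_zero (MM a) (DD a) (MM_spec a)
  intro t
  obtain ⟨h1, h2⟩ := (pt_eq_iff a _ _).1 (h i)
  exact DD_zero a (h0 i) h1 h2 t c

/-- the three parameters of a point -/
lemma mem_three (a : ℕ) {t s : ℂ} (ht : t ≠ 0) (hs : s ≠ 0) (h : pt a s = pt a t) :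
    s = t ∨ s = t ^ a ∨ s = (t ^ (a + 1))⁻¹ := by
  obtain ⟨h1, h2⟩ := (pt_eq_iff a _ _).1 h
  have key : ∀ u : ℂ, u ≠ 0 → ∀ x : ℂ, x ^ 3 - e1 a u * x ^ 2 + e2 a u * x - 1 =
      (x - u) * (x - u ^ a) * (x - (u ^ (a + 1))⁻¹) := by
    intro u hu x
    have hua : u ^ a ≠ 0 := pow_ne_zero _ hu
    rw [e1, e2, pow_succ u a, mul_inv]
    field_simp
    ring
  have h3 := key s hs s
  have h4 := key t ht s
  rw [← h1, ← h2, h3, sub_self, zero_mul, zero_mul] at h4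
  have h5 := h4.symm
  rw [mul_eq_zero, mul_eq_zero] at h5
  rcases h5 with (h5 | h5) | h5
  · exact Or.inl (sub_eq_zero.1 h5)
  · exact Or.inr (Or.inl (sub_eq_zero.1 h5))
  · exact Or.inr (Or.inr (sub_eq_zero.1 h5))

end Pool.Agent.V11319.HC
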