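import Pool.Agent.V11319.HC.Curve

set_option autoImplicit false

/-!
# The curves are irreducible
-/

namespace Pool.Agent.V11319.HC

open MvPolynomial Finset Pool.Agent.Chud

lemma norm_one_of_pt_eq (a : ℕ) (ha : 2 ≤ a) {t s : ℂ} (ht : t ≠ 0) (hs : s ≠ 0)
    (h : pt a s = pt a t) (hne : s ≠ t) : ‖t‖ = 1 := by
  have h1 := (mem_three a ht hs h).resolve_left hne
  have h2 := (mem_three a hs ht h.symm).resolve_left (Ne.symm hne)
  have hta : ∀ n, t ^ n ≠ 0 := fun n => pow_ne_zero _ ht
  rcases h1 with h1 | h1 <;> rcases h2 with h2 | h2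
  · rw [h1, ← pow_mul] at h2
    have h3 : t ^ (a * a - 1) = 1 := by
      have h4 : a * a = (a * a - 1) + 1 := by
        have : 0 < a * a := by positivity
        omega
      rw [h4, pow_succ] at h2
      have h5 : t * 1 = t * t ^ (a * a - 1) := by rw [mul_one, mul_comm]; exact h2
      exact (mul_left_cancel₀ ht h5).symm
    exact Complex.norm_eq_one_of_pow_eq_one h3 (by
      have : 2 * 2 ≤ a * a := Nat.mul_le_mul ha ha
      omega)
  · rw [h1, ← pow_mul, ← mul_eq_one_iff_eq_inv₀ (hta _), ← pow_succ'] at h2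
    exact Complex.norm_eq_one_of_pow_eq_one h2 (by omega)
  · rw [h1, inv_pow, ← pow_mul, ← mul_eq_one_iff_eq_inv₀ (hta _), ← pow_succ'] at h2
    exact Complex.norm_eq_one_of_pow_eq_one h2 (by omega)
  · rw [h1, inv_pow, inv_inv, ← pow_mul] at h2
    have h3 : t ^ ((a + 1) * (a + 1) - 1) = 1 := by
      have h4 : (a + 1) * (a + 1) = ((a + 1) * (a + 1) - 1) + 1 := by
        have : 0 < (a + 1) * (a + 1) := by positivity
        omega
      rw [h4, pow_succ] at h2
      have h5 : t * 1 = t * t ^ ((a + 1) * (a + 1) - 1) := by rw [mul_one, mul_comm]; exact h2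
      exact (mul_left_cancel₀ ht h5).symm
    exact Complex.norm_eq_one_of_pow_eq_one h3 (by
      have : 3 * 3 ≤ (a + 1) * (a + 1) := Nat.mul_le_mul (by omega) (by omega)
      omega)

lemma card_nth {n : ℕ} (hn : 0 < n) {c : ℂ} (hc : c ≠ 0) :
    (Polynomial.nthRootsFinset n c).card = n := by
  classical
  have h := Complex.isPrimitiveRoot_exp n hn.ne'
  rw [Polynomial.nthRootsFinset, ← Multiset.toFinset_eq (h.nthRoots_nodup hc), card_mk,
    h.card_nthRoots, if_pos]
  exact IsAlgClosed.exists_pow_nat_eq c hn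

open Classical in
/-- the parameters of the points on the line `4 x - 2 y = 7 z` -/
noncomputable def RS (a : ℕ) : Finset ℂ :=
  insert 2 (Polynomial.nthRootsFinset a (2 : ℂ) ∪ Polynomial.nthRootsFinset (a + 1) (1 / 2 : ℂ))

lemma card_RS {a : ℕ} (ha : 2 ≤ a) : (RS a).card = 2 * a + 2 := by
  classical
  rw [RS, card_insert_of_notMem, card_union_of_disjoint, card_nth (by omega) (by norm_num),
    card_nth (by omega) (by norm_num)]
  · omega
  · rw [Finset.disjoint_left]
    intro t h1 h2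
    rw [Polynomial.mem_nthRootsFinset (by omega)] at h1 h2
    rw [pow_succ, h1] at h2
    have h3 : t = 1 / 4 := by linear_combination h2 / 2
    rw [h3] at h1
    have h4 := congrArg norm h1
    rw [norm_pow] at h4
    have h5 : ‖(1 / 4 : ℂ)‖ ^ a ≤ 1 := pow_le_one₀ (norm_nonneg _) (by norm_num)
    rw [h4] at h5
    norm_num at h5
  · rw [mem_union, Polynomial.mem_nthRootsFinset (by omega), Polynomial.mem_nthRootsFinset (by omega)]
    rintro (h | h)
    · have h1 : (2 : ℕ) ^ a = 2 ^ 1 := by exact_mod_cast h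
      have := Nat.pow_right_injective le_rfl h1
      omega
    · have h4 := congrArg norm h
      rw [norm_pow] at h4
      have h5 : 1 ≤ ‖(2 : ℂ)‖ ^ (a + 1) := one_le_pow₀ (by norm_num)
      rw [h4] at h5
      norm_num at h5

lemma RS_ne {a : ℕ} (ha : 2 ≤ a) {t : ℂ} (ht : t ∈ RS a) : t ≠ 0 := by
  classical
  rw [RS, mem_insert, mem_union, Polynomial.mem_nthRootsFinset (by omega),
    Polynomial.mem_nthRootsFinset (by omega)] at ht
  rintro rfl
  rcases ht with h | h | h
  · norm_num at h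
  · rw [zero_pow (by omega)] at h; norm_num at h
  · rw [zero_pow (by omega)] at h; norm_num at h

lemma RS_norm {a : ℕ} (ha : 2 ≤ a) {t : ℂ} (ht : t ∈ RS a) : ‖t‖ ≠ 1 := by
  classical
  rw [RS, mem_insert, mem_union, Polynomial.mem_nthRootsFinset (by omega),
    Polynomial.mem_nthRootsFinset (by omega)] at ht
  intro h1
  rcases ht with h | h | h
  · rw [h] at h1; norm_num at h1
  · have := congrArg norm h
    rw [norm_pow, h1, one_pow] at this; norm_num at this
  · have := congrArg norm h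
    rw [norm_pow, h1, one_pow] at this; norm_num at this

lemma RS_line {a : ℕ} (ha : 2 ≤ a) {t : ℂ} (ht : t ∈ RS a) : e2 a t = 2 * (e1 a t - 2) + 1 / 2 := by
  classical
  have h0 := RS_ne ha ht
  rw [RS, mem_insert, mem_union, Polynomial.mem_nthRootsFinset (by omega),
    Polynomial.mem_nthRootsFinset (by omega)] at ht
  rcases ht with h | h | h
  · rw [h, e1, e2, pow_succ, mul_inv]
    ring
  · rw [e1, e2, pow_succ, h, mul_inv]
    ring
  · have h2 : t ^ a ≠ 0 := pow_ne_zero _ h0
    have h3 : t ^ a = 1 / 2 * t⁻¹ := by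
      rw [← h, pow_succ, mul_assoc, mul_inv_cancel₀ h0, mul_one]
    rw [e1, e2, h, h3]
    rw [mul_inv, inv_inv]
    norm_num
    ring

/-- the points of the line -/
noncomputable def pl (w : ℂ) : Fin 3 → ℂ := ![2 + w, 2 * w + 1 / 2, 1]

lemma PP'_RS {a : ℕ} (ha : 2 ≤ a) {t : ℂ} (ht : t ∈ RS a) : PP' a t = pl (e1 a t - 2) := by
  rw [PP', pl, RS_line ha ht]
  congr 1
  ring

lemma e1_inj {a : ℕ} (ha : 2 ≤ a) : Set.InjOn (fun t => e1 a t - 2) (RS a) := by
  intro t ht s hs h
  by_contra hne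
  have h1 : pt a s = pt a t := by
    rw [pt_eq_iff, RS_line ha hs, RS_line ha ht]
    simp only at h
    exact ⟨by linear_combination -h, by rw [h]⟩
  exact RS_norm ha ht (norm_one_of_pt_eq a ha (RS_ne ha ht) (RS_ne ha hs) h1 (Ne.symm hne))

lemma FF_eval_smul (a : ℕ) {t : ℂ} (ht : t ≠ 0) (c : ℂ) : eval (c • PP' a t) (FF a) = 0 := by
  have h : FF a ∈ mI (c • PP' a t) ^ 1 := by
    apply det_mem (MM a) (m := 1) (by omega) (fun _ => t) (fun x y _ => Subsingleton.elim _ _)
    intro i k
    apply ker_of_zero (MM a) (DD a) (MM_spec a)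
    intro u
    exact DD_zero a ht rfl rfl u c
  rw [pow_one, mI, RingHom.mem_ker] at h
  exact h

/-- `F` does not vanish on the whole line -/
lemma FF_line_ne {a : ℕ} (ha : 2 ≤ a) : ∃ w : ℂ, eval (pl w) (FF a) ≠ 0 := by
  classical
  obtain ⟨w, hw⟩ := Infinite.exists_notMem_finset ((RS a).image fun t => e1 a t - 2)
  refine ⟨w, ?_⟩
  let T : Fin (2 * a + 2) → ℂ := fun i => ((RS a).equivFinOfCardEq (card_RS ha)).symm i
  have hT : ∀ i, T i ∈ RS a := fun i => (((RS a).equivFinOfCardEq (card_RS ha)).symm i).2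
  have hTi : Function.Injective T := by
    intro i j hij
    exact ((RS a).equivFinOfCardEq (card_RS ha)).symm.injective (Subtype.ext hij)
  apply det_ne_zero (MM a) (DD a) (MM_spec a) (pl w) T hTi
  · intro i j _
    simp only [DD, pl, fX_eq a (RS_ne ha (hT _)), fY_eq a (RS_ne ha (hT _)), RS_line ha (hT _),
      Matrix.cons_val_zero, Matrix.cons_val_one, Matrix.cons_val]
    ring
  · intro i
    refine ⟨0, ?_⟩
    have hx : fX a 0 = 1 := by simp [fX]
    have hy : fY a 0 = 0 := by
      have : a ≠ 0 := by omega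
      simp [fY, this]
    have hz : fZ a 0 = 0 := by simp [fZ]
    have h0 := RS_ne ha (hT i)
    have h1 : w ≠ e1 a (T i) - 2 := by
      intro h
      apply hw
      rw [mem_image]
      exact ⟨T i, hT i, h.symm⟩
    have h2 : DD a (pl w) (T i) 0 = 2 * fZ a (T i) * (w - (e1 a (T i) - 2)) := by
      simp only [DD, pl, hx, hy, hz, fY_eq a h0, RS_line ha (hT i),
        Matrix.cons_val_zero, Matrix.cons_val_one, Matrix.cons_val]
      ring
    rw [h2]
    exact mul_ne_zero (mul_ne_zero two_ne_zero (fZ_ne a h0)) (sub_ne_zero.2 h1)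

/-- restriction to the line -/
noncomputable def Lr (G : MvPolynomial (Fin 3) ℂ) : Polynomial ℂ :=
  aeval (![Polynomial.C 2 + Polynomial.X, Polynomial.C 2 * Polynomial.X + Polynomial.C (1 / 2), 1] :
    Fin 3 → Polynomial ℂ) G

lemma Lr_eval (G : MvPolynomial (Fin 3) ℂ) (w : ℂ) : (Lr G).eval w = eval (pl w) G := by
  have h : ((Polynomial.evalRingHom w).comp (aeval (![Polynomial.C 2 + Polynomial.X,
      Polynomial.C 2 * Polynomial.X + Polynomial.C (1 / 2), 1] :
      Fin 3 → Polynomial ℂ) : MvPolynomial (Fin 3) ℂ →ₐ[ℂ] Polynomial ℂ).toRingHom) =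
      eval (pl w) := by
    apply MvPolynomial.ringHom_ext
    · intro r
      simp
    · intro i
      fin_cases i <;> simp [pl]
  have := RingHom.congr_fun h G
  simpa [Lr] using this

lemma Lr_deg (G : MvPolynomial (Fin 3) ℂ) : (Lr G).natDegree ≤ G.totalDegree := by
  have h := MvPolynomial.aeval_natDegree_le G le_rfl (![Polynomial.C 2 + Polynomial.X,
      Polynomial.C 2 * Polynomial.X + Polynomial.C (1 / 2), 1] : Fin 3 → Polynomial ℂ) (n := 1) (by
    intro i
    fin_cases i
    · simp only [Fin.zero_eta, Matrix.cons_val_zero]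
      rw [add_comm]
      exact (Polynomial.natDegree_X_add_C _).le
    · simp only [Fin.mk_one, Matrix.cons_val_one, Matrix.cons_val_zero]
      exact Polynomial.natDegree_linear_le
    · simp)
  rw [mul_one] at h
  exact h

/-- restriction to the cone over the curve -/
noncomputable def th (a : ℕ) : MvPolynomial (Fin 3) ℂ →ₐ[ℂ] MvPolynomial (Fin 2) ℂ :=
  aeval ![X 0 * (X 1 ^ (2 * a + 1) + X 1 ^ (a + 2) + X 1 ^ 0),
    X 0 * (X 1 ^ (2 * a + 2) + X 1 ^ a + X 1 ^ 1), X 0 * X 1 ^ (a + 1)]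

lemma th_eval (a : ℕ) (G : MvPolynomial (Fin 3) ℂ) (x : Fin 2 → ℂ) :
    eval x (th a G) = eval (x 0 • ![fX a (x 1), fY a (x 1), fZ a (x 1)]) G := by
  have h : ((eval x).comp (th a).toRingHom) =
      eval (x 0 • ![fX a (x 1), fY a (x 1), fZ a (x 1)]) := by
    apply MvPolynomial.ringHom_ext
    · intro r
      simp
    · intro i
      fin_cases i <;> simp [th, fX, fY, fZ]
  exact RingHom.congr_fun h G

lemma th_FF (a : ℕ) : th a (FF a) = 0 := by
  have h : X 1 * th a (FF a) = 0 := by
    apply MvPolynomial.funext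
    intro x
    rw [map_mul, map_zero, eval_X]
    by_cases h1 : x 1 = 0
    · rw [h1, zero_mul]
    · rw [th_eval]
      have h2 : (x 0 • ![fX a (x 1), fY a (x 1), fZ a (x 1)] : Fin 3 → ℂ) =
          (x 0 * fZ a (x 1)) • PP' a (x 1) := by
        rw [PP', fX_eq a h1, fY_eq a h1]
        ext i
        fin_cases i <;> simp [mul_assoc]
      rw [h2, FF_eval_smul a h1, mul_zero]
  exact (mul_eq_zero.1 h).resolve_left (X_ne_zero _)

lemma FF_ne {a : ℕ} (ha : 2 ≤ a) : FF a ≠ 0 := by
  obtain ⟨w, hw⟩ := FF_line_ne ha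
  intro h
  rw [h, map_zero] at hw
  exact hw rfl

lemma FF_deg {a : ℕ} (ha : 2 ≤ a) : (FF a).totalDegree = 2 * a + 2 :=
  (FF_homog a).totalDegree (FF_ne ha)

lemma factor_aux {a : ℕ} (ha : 2 ≤ a) {G H : MvPolynomial (Fin 3) ℂ} (h : FF a = G * H)
    (hG : th a G = 0) : IsUnit H := by
  classical
  have h0 := FF_ne ha
  have hG0 : G ≠ 0 := by rintro rfl; rw [zero_mul] at h; exact h0 h
  have hH0 : H ≠ 0 := by rintro rfl; rw [mul_zero] at h; exact h0 h
  have hd := totalDegree_mul_of_isDomain hG0 hH0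
  rw [← h, FF_deg ha] at hd
  have hroots : ∀ t ∈ RS a, (Lr G).eval (e1 a t - 2) = 0 := by
    intro t ht
    have ht0 := RS_ne ha ht
    rw [Lr_eval, ← PP'_RS ha ht]
    have h1 := th_eval a G ![(fZ a t)⁻¹, t]
    rw [hG, map_zero] at h1
    rw [h1]
    congr 2
    have h2 := fZ_ne a ht0
    rw [PP']
    ext i
    fin_cases i <;> simp [fX_eq a ht0, fY_eq a ht0, h2]
  have hbig : 2 * a + 2 ≤ G.totalDegree := by
    by_contra hlt
    have h1 : Lr G = 0 := by
      by_contra hne
      have h2 : (RS a).image (fun t => e1 a t - 2) ⊆ (Lr G).roots.toFinset := by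
        intro w hw
        obtain ⟨t, ht, rfl⟩ := mem_image.1 hw
        rw [Multiset.mem_toFinset, Polynomial.mem_roots hne]
        exact hroots t ht
      have h3 := card_le_card h2
      rw [card_image_of_injOn (e1_inj ha), card_RS ha] at h3
      have h4 := Multiset.toFinset_card_le (Lr G).roots
      have h5 := Polynomial.card_roots' (Lr G)
      have h6 := Lr_deg G
      omega
    obtain ⟨w, hw⟩ := FF_line_ne ha
    apply hw
    rw [h, map_mul, ← Lr_eval G, h1, Polynomial.eval_zero, zero_mul]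
  have h7 : H.totalDegree = 0 := by omega
  rw [totalDegree_eq_zero_iff_eq_C] at h7
  rw [h7]
  have hc : coeff 0 H ≠ 0 := by
    intro hc
    rw [hc, C_0] at h7
    exact hH0 h7
  exact (isUnit_iff_ne_zero.2 hc).map C

lemma FF_irr {a : ℕ} (ha : 2 ≤ a) : Irreducible (FF a) := by
  constructor
  · intro hu
    obtain ⟨c, -, hc⟩ := MvPolynomial.isUnit_iff_eq_C_of_isReduced.1 hu
    have h1 := FF_deg ha
    rw [hc, totalDegree_C] at h1
    omega
  · intro G H h
    have h1 : th a G * th a H = 0 := by rw [← map_mul, ← h, th_FF]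
    rcases mul_eq_zero.1 h1 with h2 | h2
    · exact Or.inr (factor_aux ha h h2)
    · rw [mul_comm] at h
      exact Or.inl (factor_aux ha h h2)

/-- the singular points of the plane curve `F = 0` -/
def sing (F : MvPolynomial (Fin 3) ℂ) : Set (Projectivization ℂ (Fin 3 → ℂ)) :=
  {p | 2 ≤ mu p.rep F}

lemma sing_finite {F : MvPolynomial (Fin 3) ℂ} {d : ℕ} (hF : F.IsHomogeneous d)
    (hirr : Irreducible F) (hd : 1 ≤ d) : (sing F).Finite := by
  classical
  obtain ⟨i, hi⟩ := exists_pderiv_ne_zero hirr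
  have hG : (pderiv i F).IsHomogeneous (d - 1) := hF.pderiv
  have hrel : IsRelPrime F (pderiv i F) := by
    rw [hirr.isRelPrime_iff_not_dvd]
    intro hdvd
    have h1 := totalDegree_le_of_dvd_of_isDomain hdvd hi
    rw [hF.totalDegree hirr.ne_zero, hG.totalDegree hi] at h1
    omega
  by_contra hinf
  obtain ⟨P, hP, hc⟩ := Set.Infinite.exists_subset_card_eq hinf (d * (d - 1) + 1)
  have hm : ∀ p ∈ P, F ∈ mI p.rep ^ 2 := fun p hp =>
    (mem_mI_pow_iff p.rep hirr.ne_zero 2).2 (hP hp)
  have h2 := bezout hF hG hirr.ne_zero hi hrel P (fun _ => 1) (fun _ => 1)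
    (fun p hp => Ideal.pow_le_pow_right (by norm_num) (hm p hp))
    (fun p hp => deriv_mem p.rep (pderiv i) 1 F (hm p hp))
  simp only [mul_one, sum_const, smul_eq_mul, hc] at h2
  omega

end Pool.Agent.V11319.HC
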